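import Pool.Agent.helper48.HF.E3

open Polynomial

namespace HF48

variable {F : Type} [Field F] [Fintype F]

open Classical in
theorem values_ge (l k N : ℕ) :
    ((Fintype.card F) ^ (l * (N + 1))) ^ 2 ≤
      (((finite_L (F := F) l (N + 1)).toFinset.image (fun x => ∑ i, x i ^ k)).card) *
        Nat.card (Pairs F l k N) := by
  set X : Finset (Fin l → F[X]) := (finite_L (F := F) l (N + 1)).toFinset with hX
  set φ : (Fin l → F[X]) → F[X] := fun x => ∑ i, x i ^ k with hφ
  have hXm : ∀ x, x ∈ X ↔ ∀ i, (x i).natDegree ≤ N := by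
    intro x
    rw [hX, Set.Finite.mem_toFinset]
    exact mem_L_iff
  have hXc : (Fintype.card F) ^ (l * (N + 1)) ≤ X.card := by
    refine (card_L_ge l (N + 1)).trans (le_of_eq ?_)
    rw [hX]
    exact Nat.card_eq_card_finite_toFinset (finite_L (F := F) l (N + 1))
  have h1 : X.card = ∑ b ∈ X.image φ, (X.filter (fun x => φ x = b)).card :=
    Finset.card_eq_sum_card_image φ X
  have h2 : ((X ×ˢ X).filter (fun z => φ z.1 = φ z.2)).card =
      ∑ b ∈ X.image φ, (X.filter (fun x => φ x = b)).card ^ 2 := by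
    rw [Finset.card_eq_sum_card_fiberwise (f := fun z : (Fin l → F[X]) × (Fin l → F[X]) => φ z.1)
      (t := X.image φ)]
    · refine Finset.sum_congr rfl (fun b _ => ?_)
      have h3 : ((X ×ˢ X).filter (fun z => φ z.1 = φ z.2)).filter (fun z => φ z.1 = b) =
          (X.filter (fun x => φ x = b)) ×ˢ (X.filter (fun x => φ x = b)) := by
        ext ⟨x, y⟩
        simp only [Finset.mem_filter, Finset.mem_product]
        constructor
        · rintro ⟨⟨⟨hx, hy⟩, h⟩, hb⟩
          exact ⟨⟨hx, hb⟩, hy, h ▸ hb⟩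
        · rintro ⟨⟨hx, hb⟩, hy, hb'⟩
          exact ⟨⟨⟨hx, hy⟩, hb.trans hb'.symm⟩, hb⟩
      rw [h3, Finset.card_product, sq]
    · intro z hz
      have hz' := Finset.mem_filter.mp (Finset.mem_coe.mp hz)
      exact Finset.mem_coe.mpr (Finset.mem_image_of_mem φ (Finset.mem_product.mp hz'.1).1)
  have h3 : Nat.card (Pairs F l k N) = ((X ×ˢ X).filter (fun z => φ z.1 = φ z.2)).card := by
    have h4 : Pairs F l k N = (((X ×ˢ X).filter (fun z => φ z.1 = φ z.2) :
        Finset ((Fin l → F[X]) × (Fin l → F[X]))) : Set ((Fin l → F[X]) × (Fin l → F[X]))) := by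
      ext z
      simp only [Pairs, Set.mem_ofPred_eq, Finset.coe_filter, Finset.mem_product, hXm, hφ]
      tauto
    rw [h4, Nat.card_coe_set_eq, Set.ncard_coe_finset]
  have h5 : (∑ b ∈ X.image φ, (X.filter (fun x => φ x = b)).card) ^ 2 ≤
      (X.image φ).card * ∑ b ∈ X.image φ, (X.filter (fun x => φ x = b)).card ^ 2 := by
    exact sq_sum_le_card_mul_sum_sq
  rw [← h1, ← h2, ← h3] at h5
  exact (Nat.pow_le_pow_left hXc 2).trans h5

/-- the polynomials of degree at most D which are sums of l k-th powers of polynomials of degree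
at most D / k -/
def Rep (F : Type) [Field F] (l k D : ℕ) : Set F[X] :=
  {f | f.natDegree ≤ D ∧ ∃ x : Fin l → F[X], (∀ i, k * (x i).natDegree ≤ D) ∧
    f = ∑ i, x i ^ k}

theorem finite_Rep (l k D : ℕ) : (Rep F l k D).Finite := by
  have h1 : ((fun f : F[X] => (fun _ : Fin 1 => f)) '' (Rep F l k D)).Finite := by
    apply (finite_L (F := F) 1 (D + 1)).subset
    rintro _ ⟨f, hf, rfl⟩
    exact mem_L_iff.mpr (fun _ => hf.1)
  exact h1.of_finite_image (fun f _ g _ h => congrFun h 0)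

theorem rep_bound (p e a l : ℕ) [Fact p.Prime] [CharP F p] (ha : 0 < a)
    (hl : 4 * l < p ^ e) :
    ∃ c : ℝ, 0 < c ∧ ∀ D : ℕ, c * (Fintype.card F : ℝ) ^ ((l : ℝ) * D / ((a * p ^ e + 1 : ℕ) : ℝ)) ≤
      Nat.card (Rep F l (a * p ^ e + 1) D) := by
  classical
  obtain ⟨C, hC0, hC⟩ := pairs_bound (F := F) p e a l ha hl
  set k : ℕ := a * p ^ e + 1 with hk
  have hQ1 : (1 : ℝ) ≤ Fintype.card F := by exact_mod_cast Fintype.card_pos
  have hQ0 : (0 : ℝ) < Fintype.card F := by linarith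
  refine ⟨1 / C, by positivity, ?_⟩
  intro D
  set N : ℕ := D / k with hN
  have hk0 : 0 < k := by omega
  have hDN : D < k * (N + 1) := by
    rw [hN]
    exact (Nat.lt_mul_div_succ D hk0)
  have hkN : k * N ≤ D := Nat.mul_div_le D k
  have h1 := values_ge (F := F) l k N
  set I := ((finite_L (F := F) l (N + 1)).toFinset.image (fun x => ∑ i, x i ^ k)) with hI
  have h2 : I.card ≤ Nat.card (Rep F l k D) := by
    have h3 : (I : Set F[X]) ⊆ Rep F l k D := by
      intro f hf
      rw [hI, Finset.mem_coe, Finset.mem_image] at hf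
      obtain ⟨x, hx, rfl⟩ := hf
      rw [Set.Finite.mem_toFinset] at hx
      have hx' : ∀ i, (x i).natDegree ≤ N := mem_L_iff.mp hx
      have hx2 : ∀ i, k * (x i).natDegree ≤ D := fun i =>
        (Nat.mul_le_mul_left k (hx' i)).trans hkN
      refine ⟨?_, x, hx2, rfl⟩
      apply Polynomial.natDegree_sum_le_of_forall_le
      intro i _
      exact (Polynomial.natDegree_pow_le).trans (hx2 i)
    have h4 := Set.ncard_le_ncard h3 (finite_Rep l k D)
    rw [Set.ncard_coe_finset] at h4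
    exact h4
  have h3 : ((Fintype.card F : ℝ) ^ (l * (N + 1))) ^ 2 ≤
      (Nat.card (Rep F l k D) : ℝ) * (C * (Fintype.card F : ℝ) ^ (l * N)) := by
    calc ((Fintype.card F : ℝ) ^ (l * (N + 1))) ^ 2
        ≤ (I.card : ℝ) * (Nat.card (Pairs F l k N) : ℝ) := by exact_mod_cast h1
      _ ≤ (Nat.card (Rep F l k D) : ℝ) * (C * (Fintype.card F : ℝ) ^ (l * N)) := by
          apply mul_le_mul _ (hC N) (by positivity) (by positivity)
          exact_mod_cast h2
  have h4 : (Fintype.card F : ℝ) ^ ((l : ℝ) * D / (k : ℝ)) ≤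
      (Fintype.card F : ℝ) ^ (l * (N + 1)) := by
    rw [← Real.rpow_natCast]
    apply Real.rpow_le_rpow_of_exponent_le hQ1
    rw [div_le_iff₀ (by exact_mod_cast hk0)]
    push_cast
    have h5 : (D : ℝ) ≤ k * (N + 1) := by exact_mod_cast hDN.le
    have h6 : (0 : ℝ) ≤ l := Nat.cast_nonneg l
    nlinarith
  have h5 : (Fintype.card F : ℝ) ^ (l * N) ≤ (Fintype.card F : ℝ) ^ (l * (N + 1)) :=
    pow_le_pow_right₀ hQ1 (Nat.mul_le_mul_left l (by omega))
  have h6 : (Fintype.card F : ℝ) ^ (l * (N + 1)) ≤ (Nat.card (Rep F l k D) : ℝ) * C := by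
    have h7 : 0 < (Fintype.card F : ℝ) ^ (l * (N + 1)) := by positivity
    have h8 : ((Fintype.card F : ℝ) ^ (l * (N + 1))) * ((Fintype.card F : ℝ) ^ (l * (N + 1))) ≤
        ((Nat.card (Rep F l k D) : ℝ) * C) * ((Fintype.card F : ℝ) ^ (l * (N + 1))) := by
      calc ((Fintype.card F : ℝ) ^ (l * (N + 1))) * ((Fintype.card F : ℝ) ^ (l * (N + 1)))
          = ((Fintype.card F : ℝ) ^ (l * (N + 1))) ^ 2 := by ring
        _ ≤ (Nat.card (Rep F l k D) : ℝ) * (C * (Fintype.card F : ℝ) ^ (l * N)) := h3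
        _ ≤ (Nat.card (Rep F l k D) : ℝ) * (C * (Fintype.card F : ℝ) ^ (l * (N + 1))) := by
            apply mul_le_mul_of_nonneg_left _ (by positivity)
            exact mul_le_mul_of_nonneg_left h5 hC0.le
        _ = _ := by ring
    exact le_of_mul_le_mul_right h8 h7
  rw [one_div, inv_mul_le_iff₀ hC0]
  linarith

end HF48
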