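import Pool.Agent.helper48.HF.Defs

open Polynomial

namespace HF48

variable {F : Type} [Field F]

/-- coefficient map -/
noncomputable def lc (n d : ℕ) : (Fin n → F[X]) →ₗ[F] (Fin n → F) where
  toFun x := fun i => (x i).coeff d
  map_add' := by
    intro x y; funext i; simp
  map_smul' := by
    intro c x; funext i; simp

theorem lc_apply {n d : ℕ} (x : Fin n → F[X]) (i : Fin n) : lc n d x i = (x i).coeff d := rfl

theorem mem_V_of_lc {n d : ℕ} {W : Submodule (RatFunc F) (Fin n → RatFunc F)} {x : Fin n → F[X]}
    (hx : x ∈ V (d + 1) W) (h0 : lc n d x = 0) : x ∈ V d W := by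
  refine ⟨?_, hx.2⟩
  have h1 := hx.1
  rw [mem_L] at h1 ⊢
  intro i
  have h2 : (x i).coeff d = 0 := by
    have := congrFun h0 i
    simpa [lc_apply] using this
  rw [Polynomial.degree_lt_iff_coeff_zero] at *
  intro m hm
  rcases Nat.eq_or_lt_of_le hm with h | h
  · rw [← h]; exact h2
  · have h3 := h1 i
    rw [Polynomial.degree_lt_iff_coeff_zero] at h3
    exact h3 m h

theorem indep {n d s : ℕ} (x : Fin s → (Fin n → F[X])) (hx : ∀ j, x j ∈ L F n (d + 1))
    (hl : LinearIndependent F (fun j => lc n d (x j))) :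
    LinearIndependent (RatFunc F) (fun j => io (x j)) := by
  rw [← LinearIndependent.iff_fractionRing F[X] (RatFunc F)]
  rw [Fintype.linearIndependent_iff]
  intro g hg
  by_contra hne
  push Not at hne
  obtain ⟨j0, hj0⟩ := hne
  classical
  have hS : (Finset.univ.filter (fun j => g j ≠ 0)).Nonempty := ⟨j0, by simp [hj0]⟩
  obtain ⟨j1, hj1, hmax⟩ := Finset.exists_max_image _ (fun j => (g j).natDegree) hS
  have hj1' : g j1 ≠ 0 := (Finset.mem_filter.mp hj1).2
  set D := (g j1).natDegree with hD
  have hle : ∀ j, (g j).natDegree ≤ D := by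
    intro j
    by_cases h : g j = 0
    · simp [h]
    · exact hmax j (by simp [h])
  have hxd : ∀ j i, (x j i).natDegree ≤ d := by
    intro j i
    have h1 := (mem_L.mp (hx j)) i
    by_cases h : x j i = 0
    · simp [h]
    · have h2 := (Polynomial.natDegree_lt_iff_degree_lt h).mpr h1
      omega
  have hzero : ∀ i, ∑ j, g j * x j i = 0 := by
    intro i
    have h1 := congrFun hg i
    simp only [Finset.sum_apply, Pi.smul_apply, Pi.zero_apply] at h1
    have h2 : algebraMap F[X] (RatFunc F) (∑ j, g j * x j i) = 0 := by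
      rw [map_sum, ← h1]
      refine Finset.sum_congr rfl (fun j _ => ?_)
      rw [map_mul, Algebra.smul_def]
      rfl
    exact (IsFractionRing.injective F[X] (RatFunc F)) (by rw [h2, map_zero])
  have hsum : ∑ j, (g j).coeff D • lc n d (x j) = 0 := by
    funext i
    rw [Finset.sum_apply]
    have h1 := congrArg (fun P => Polynomial.coeff P (D + d)) (hzero i)
    simp only [Polynomial.finsetSum_coeff, Polynomial.coeff_zero] at h1
    rw [Pi.zero_apply, ← h1]
    refine Finset.sum_congr rfl (fun j _ => ?_)
    rw [Polynomial.coeff_mul_add_eq_of_natDegree_le (hle j) (hxd j i)]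
    simp [lc_apply]
  have h3 := (Fintype.linearIndependent_iff.mp hl) (fun j => (g j).coeff D) hsum j1
  have h4 : (g j1).leadingCoeff = 0 := h3
  exact hj1' (Polynomial.leadingCoeff_eq_zero.mp h4)

/-- all coefficients of a vector of polynomials -/
noncomputable def cfs (n d : ℕ) : (Fin n → F[X]) →ₗ[F] (Fin n → Fin d → F) where
  toFun x := fun i k => (x i).coeff k
  map_add' := by
    intro x y; funext i k; simp
  map_smul' := by
    intro c x; funext i k; simp

theorem cfs_apply {n d : ℕ} (x : Fin n → F[X]) (i : Fin n) (k : Fin d) :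
    cfs n d x i k = (x i).coeff k := rfl

theorem cfs_inj {n d : ℕ} {x y : Fin n → F[X]} (hx : x ∈ L F n d) (hy : y ∈ L F n d)
    (h : cfs n d x = cfs n d y) : x = y := by
  funext i
  ext k
  by_cases hk : k < d
  · have := congrFun (congrFun h i) ⟨k, hk⟩
    rw [cfs_apply, cfs_apply] at this
    exact this
  · have h1 := (Polynomial.degree_lt_iff_coeff_zero _ _).mp ((mem_L.mp hx) i) k (by omega)
    have h2 := (Polynomial.degree_lt_iff_coeff_zero _ _).mp ((mem_L.mp hy) i) k (by omega)
    rw [h1, h2]

theorem finite_of_le {n d : ℕ} (U : Submodule F (Fin n → F[X])) (h : U ≤ L F n d) :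
    Module.Finite F U := by
  have hinj : Function.Injective ((cfs n d).domRestrict U) := by
    intro x y hxy
    apply Subtype.ext
    exact cfs_inj (h x.2) (h y.2) hxy
  exact Module.Finite.of_injective _ hinj

theorem V_le_L {n d : ℕ} (W : Submodule (RatFunc F) (Fin n → RatFunc F)) : V d W ≤ L F n d :=
  fun _ hx => hx.1

instance finV (n d : ℕ) (W : Submodule (RatFunc F) (Fin n → RatFunc F)) :
    Module.Finite F (V d W) := finite_of_le _ (V_le_L W)

end HF48
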