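import Pool.Agent.helper48.HF.A

open Polynomial

namespace HF48

variable {F : Type} [Field F]

theorem ker_le {n : ℕ} (d : ℕ) (W : Submodule (RatFunc F) (Fin n → RatFunc F)) :
    Module.finrank F (LinearMap.ker ((lc n d).domRestrict (V (d + 1) W))) ≤
      Module.finrank F (V d W) := by
  have key : ∀ x : LinearMap.ker ((lc n d).domRestrict (V (d + 1) W)),
      ((x : V (d + 1) W) : Fin n → F[X]) ∈ V d W := by
    intro x
    exact mem_V_of_lc (x : V (d + 1) W).2 (LinearMap.mem_ker.mp x.2)
  have h1 : Submodule.map (Submodule.subtype (V (d + 1) W))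
      (LinearMap.ker ((lc n d).domRestrict (V (d + 1) W))) ≤ V d W := by
    rintro y ⟨x, hx, rfl⟩
    exact key ⟨x, hx⟩
  have h2 := Submodule.finrank_mono h1
  have h3 := (Submodule.equivMapOfInjective (Submodule.subtype (V (d + 1) W))
    (Submodule.injective_subtype _)
    (LinearMap.ker ((lc n d).domRestrict (V (d + 1) W)))).finrank_eq
  rw [h3]
  exact h2

theorem range_le {n : ℕ} (d : ℕ) (W : Submodule (RatFunc F) (Fin n → RatFunc F)) :
    Module.finrank F (LinearMap.range ((lc n d).domRestrict (V (d + 1) W))) ≤
      Module.finrank (RatFunc F) W := by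
  let b := Module.finBasis F (LinearMap.range ((lc n d).domRestrict (V (d + 1) W)))
  have hex : ∀ j, ∃ x : V (d + 1) W, (lc n d).domRestrict (V (d + 1) W) x = (b j : Fin n → F) :=
    fun j => (b j).2
  choose x hx using hex
  have hli : LinearIndependent F (fun j => lc n d (x j : Fin n → F[X])) := by
    have h4 : (fun j => lc n d (x j : Fin n → F[X])) = (fun j => (b j : Fin n → F)) := by
      funext j
      exact hx j
    rw [h4]
    exact b.linearIndependent.map' (Submodule.subtype _) (Submodule.ker_subtype _)
  have h5 := indep (fun j => (x j : Fin n → F[X])) (fun j => (x j).2.1) hli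
  have h6 : LinearIndependent (RatFunc F)
      (fun j => (⟨io (x j : Fin n → F[X]), (x j).2.2⟩ : W)) :=
    LinearIndependent.of_comp (Submodule.subtype W) h5
  have h7 := h6.fintype_card_le_finrank
  rw [Fintype.card_fin] at h7
  exact h7

theorem finrank_V_succ {n : ℕ} (d : ℕ) (W : Submodule (RatFunc F) (Fin n → RatFunc F)) :
    Module.finrank F (V (d + 1) W) ≤
      Module.finrank F (V d W) + Module.finrank (RatFunc F) W := by
  have h1 := LinearMap.finrank_range_add_finrank_ker ((lc n d).domRestrict (V (d + 1) W))
  have h2 := ker_le d W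
  have h3 := range_le d W
  omega

end HF48
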