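import Pool.Agent.helper48.HF.A2

open Polynomial

namespace HF48

section linalg
variable {K : Type} [Field K] {E : Type} [AddCommGroup E] [Module K E] [FiniteDimensional K E]

theorem finrank_sup_span_singleton' (W : Submodule K E) (s : E) (hs : s ∉ W) :
    Module.finrank K (W ⊔ Submodule.span K {s} : Submodule K E) = Module.finrank K W + 1 := by
  have hs0 : s ≠ 0 := fun h => hs (h ▸ W.zero_mem)
  have h1 := Submodule.finrank_sup_add_finrank_inf_eq W (Submodule.span K {s})
  have h2 : W ⊓ Submodule.span K {s} = ⊥ := by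
    rw [Submodule.eq_bot_iff]
    rintro x ⟨hx1, hx2⟩
    obtain ⟨c, rfl⟩ := Submodule.mem_span_singleton.mp hx2
    by_contra hne
    have hc : c ≠ 0 := by
      rintro rfl
      simp at hne
    apply hs
    have := W.smul_mem c⁻¹ hx1
    rwa [smul_smul, inv_mul_cancel₀ hc, one_smul] at this
  rw [h2, finrank_bot, finrank_span_singleton hs0] at h1
  omega

theorem extend_span (S : Set E) (k : ℕ) : ∀ W : Submodule K E, W ≤ Submodule.span K S →
    Module.finrank K (Submodule.span K S) = Module.finrank K W + k →
    ∃ g : Fin k → E, (∀ i, g i ∈ S) ∧ Submodule.span K S = W ⊔ Submodule.span K (Set.range g) := by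
  induction k with
  | zero =>
    intro W hW hk
    refine ⟨fun i => i.elim0, fun i => i.elim0, ?_⟩
    have h1 : W = Submodule.span K S := Submodule.eq_of_le_of_finrank_eq hW (by omega)
    rw [← h1]
    simp
  | succ k ih =>
    intro W hW hk
    have hex : ∃ s ∈ S, s ∉ W := by
      by_contra hne
      push Not at hne
      have h1 : Submodule.span K S ≤ W := Submodule.span_le.mpr hne
      have h2 := le_antisymm hW h1
      rw [← h2] at hk
      omega
    obtain ⟨s, hs, hsW⟩ := hex
    have h1 : W ⊔ Submodule.span K {s} ≤ Submodule.span K S := by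
      refine sup_le hW ?_
      rw [Submodule.span_singleton_le_iff_mem]
      exact Submodule.subset_span hs
    have h2 := finrank_sup_span_singleton' W s hsW
    obtain ⟨g, hg, hg2⟩ := ih (W ⊔ Submodule.span K {s}) h1 (by rw [h2]; omega)
    refine ⟨Fin.cons s g, ?_, ?_⟩
    · intro i
      refine Fin.cases ?_ ?_ i
      · simpa using hs
      · intro j; simpa using hg j
    · rw [hg2, Fin.range_cons, Set.insert_eq, Submodule.span_union, sup_assoc]

end linalg

variable {F : Type} [Field F]

/-- subspaces spanned by their polynomial vectors of degree below `d` -/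
def isW {n : ℕ} (d : ℕ) (W : Submodule (RatFunc F) (Fin n → RatFunc F)) : Prop :=
  Submodule.span (RatFunc F) (io '' (V d W : Set (Fin n → F[X]))) = W

/-- the part of `W` spanned by its polynomial vectors of degree below `d` -/
noncomputable def low {n : ℕ} (d : ℕ) (W : Submodule (RatFunc F) (Fin n → RatFunc F)) :
    Submodule (RatFunc F) (Fin n → RatFunc F) :=
  Submodule.span (RatFunc F) (io '' (V d W : Set (Fin n → F[X])))

theorem low_le {n : ℕ} (d : ℕ) (W : Submodule (RatFunc F) (Fin n → RatFunc F)) : low d W ≤ W := by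
  apply Submodule.span_le.mpr
  rintro y ⟨x, hx, rfl⟩
  exact hx.2

theorem V_low {n : ℕ} (d : ℕ) (W : Submodule (RatFunc F) (Fin n → RatFunc F)) :
    V d (low d W) = V d W := by
  apply le_antisymm
  · intro x hx
    exact ⟨hx.1, low_le d W hx.2⟩
  · intro x hx
    exact ⟨hx.1, Submodule.subset_span ⟨x, hx, rfl⟩⟩

theorem isW_low {n : ℕ} (d : ℕ) (W : Submodule (RatFunc F) (Fin n → RatFunc F)) :
    isW d (low d W) := by
  unfold isW
  rw [V_low]
  rfl

theorem isW_zero {n : ℕ} {W : Submodule (RatFunc F) (Fin n → RatFunc F)} (h : isW 0 W) :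
    W = ⊥ := by
  unfold isW at h
  rw [← h, Submodule.span_eq_bot]
  rintro y ⟨x, hx, rfl⟩
  have h1 : x = 0 := by
    funext i
    have := (mem_L.mp hx.1) i
    simpa [Polynomial.degree_lt_iff_coeff_zero, Polynomial.ext_iff] using this
  rw [h1, io_zero]

variable [Fintype F]

theorem finite_L (n d : ℕ) : (L F n d : Set (Fin n → F[X])).Finite := by
  apply Set.Finite.of_finite_image (f := cfs n d)
  · exact Set.toFinite _
  · intro x hx y hy h
    exact cfs_inj hx hy h

theorem card_L_le (n d : ℕ) : Nat.card (L F n d) ≤ (Fintype.card F) ^ (n * d) := by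
  have h1 : Nat.card (L F n d) ≤ Nat.card (Fin n → Fin d → F) := by
    apply Nat.card_le_card_of_injective (fun x : L F n d => cfs n d (x : Fin n → F[X]))
    intro x y h
    exact Subtype.ext (cfs_inj x.2 y.2 h)
  refine h1.trans (le_of_eq ?_)
  rw [Nat.card_eq_fintype_card]
  rw [Fintype.card_fun, Fintype.card_fun, Fintype.card_fin, Fintype.card_fin, ← pow_mul, mul_comm]

theorem finite_WW (n d : ℕ) :
    {W : Submodule (RatFunc F) (Fin n → RatFunc F) | isW d W}.Finite := by
  apply Set.Finite.of_finite_image (f := fun W => (V d W : Set (Fin n → F[X])))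
  · apply Set.Finite.subset (finite_L (F := F) n d).finite_subsets
    rintro _ ⟨W, _, rfl⟩
    exact V_le_L W
  · intro W hW W' hW' h
    have h' : (V d W : Set (Fin n → F[X])) = V d W' := h
    have h1 : isW d W := hW
    have h2 : isW d W' := hW'
    unfold isW at h1 h2
    rw [← h1, ← h2, h']

/-- the finite set of subspaces spanned by polynomial vectors of degree below `d` -/
noncomputable def WW (F : Type) [Field F] [Fintype F] (n d : ℕ) :
    Finset (Submodule (RatFunc F) (Fin n → RatFunc F)) := (finite_WW n d).toFinset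

theorem mem_WW {n d : ℕ} {W : Submodule (RatFunc F) (Fin n → RatFunc F)} :
    W ∈ WW F n d ↔ isW d W := by
  simp [WW]

end HF48
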