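import Pool.Agent.helper48.HF.B

open Polynomial

namespace HF48

variable {F : Type} [Field F] [Fintype F]

open Classical in
theorem fiber_card {n d j : ℕ} (W' : Submodule (RatFunc F) (Fin n → RatFunc F)) :
    ((WW F n (d + 1)).filter (fun W => low d W = W' ∧
      Module.finrank (RatFunc F) W = Module.finrank (RatFunc F) W' + j)).card ≤
      ((Fintype.card F) ^ (n * (d + 1))) ^ j := by
  haveI : Finite (L F n (d + 1)) := (finite_L n (d + 1)).to_subtype
  haveI : Fintype (L F n (d + 1)) := Fintype.ofFinite _
  have hsub : (WW F n (d + 1)).filter (fun W => low d W = W' ∧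
      Module.finrank (RatFunc F) W = Module.finrank (RatFunc F) W' + j) ⊆
      (Finset.univ : Finset (Fin j → L F n (d + 1))).image
        (fun g => W' ⊔ Submodule.span (RatFunc F)
          (Set.range (fun i => io ((g i : Fin n → F[X]))))) := by
    intro W hW
    rw [Finset.mem_filter, mem_WW] at hW
    obtain ⟨h1, h2, h3⟩ := hW
    have h4 : W' ≤ Submodule.span (RatFunc F) (io '' (V (d + 1) W : Set (Fin n → F[X]))) := by
      have h5 : Submodule.span (RatFunc F) (io '' (V (d + 1) W : Set (Fin n → F[X]))) = W := h1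
      rw [h5, ← h2]
      exact low_le d W
    have h5 : Submodule.span (RatFunc F) (io '' (V (d + 1) W : Set (Fin n → F[X]))) = W := h1
    obtain ⟨g, hg, hg2⟩ := extend_span (io '' (V (d + 1) W : Set (Fin n → F[X]))) j W' h4
      (by rw [h5]; exact h3)
    choose x hx hx2 using hg
    rw [Finset.mem_image]
    refine ⟨fun i => ⟨x i, (hx i).1⟩, Finset.mem_univ _, ?_⟩
    have h6 : (fun i => io (((⟨x i, (hx i).1⟩ : L F n (d + 1)) : Fin n → F[X]))) = g := by
      funext i
      exact hx2 i
    rw [h6, ← hg2, h5]
  refine (Finset.card_le_card hsub).trans (Finset.card_image_le.trans ?_)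
  rw [Finset.card_univ, Fintype.card_fun, Fintype.card_fin]
  apply Nat.pow_le_pow_left
  rw [← Nat.card_eq_fintype_card]
  exact card_L_le n (d + 1)

/-- the weighted count of subspaces -/
noncomputable def Psi (F : Type) [Field F] [Fintype F] (n : ℕ) (β : ℝ) (d : ℕ) : ℝ :=
  ∑ W ∈ WW F n d, β ^ (Module.finrank F (V d W)) / β ^ (d * Module.finrank (RatFunc F) W)

theorem Psi_nonneg (n : ℕ) (β : ℝ) (hβ : 0 ≤ β) (d : ℕ) : 0 ≤ Psi F n β d :=
  Finset.sum_nonneg (fun _ _ => by positivity)

theorem low_mem {n d : ℕ} (W : Submodule (RatFunc F) (Fin n → RatFunc F)) :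
    low d W ∈ WW F n d := mem_WW.mpr (isW_low d W)

open Classical in
theorem Psi_succ {n : ℕ} (β : ℝ) (hβ : 1 ≤ β) (d : ℕ) :
    Psi F n β (d + 1) ≤ Psi F n β d *
      ∑ j ∈ Finset.range (n + 1), (((Fintype.card F : ℝ) ^ (n * (d + 1))) / β ^ d) ^ j := by
  have hβ0 : 0 < β := by linarith
  set T : (Submodule (RatFunc F) (Fin n → RatFunc F)) × ℕ → ℝ := fun p =>
    β ^ (Module.finrank F (V d p.1)) / β ^ (d * Module.finrank (RatFunc F) p.1) *
      (1 / β ^ d) ^ p.2 with hT
  set φ : Submodule (RatFunc F) (Fin n → RatFunc F) →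
      (Submodule (RatFunc F) (Fin n → RatFunc F)) × ℕ := fun W =>
    (low d W, Module.finrank (RatFunc F) W - Module.finrank (RatFunc F) (low d W)) with hφ
  have hterm : ∀ W ∈ WW F n (d + 1),
      β ^ (Module.finrank F (V (d + 1) W)) / β ^ ((d + 1) * Module.finrank (RatFunc F) W) ≤
        T (φ W) := by
    intro W _
    have h1 := finrank_V_succ d W
    have h2 : Module.finrank (RatFunc F) (low d W) ≤ Module.finrank (RatFunc F) W :=
      Submodule.finrank_mono (low_le d W)
    obtain ⟨j, hj⟩ := Nat.exists_eq_add_of_le h2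
    have h3 : Module.finrank (RatFunc F) W - Module.finrank (RatFunc F) (low d W) = j := by omega
    simp only [hT, hφ, h3]
    have h4 : β ^ (Module.finrank F (V (d + 1) W)) ≤
        β ^ (Module.finrank F (V d W) + Module.finrank (RatFunc F) W) :=
      pow_le_pow_right₀ hβ h1
    have h5 : β ^ (Module.finrank F (V (d + 1) W)) /
        β ^ ((d + 1) * Module.finrank (RatFunc F) W) ≤
        β ^ (Module.finrank F (V d W) + Module.finrank (RatFunc F) W) /
        β ^ ((d + 1) * Module.finrank (RatFunc F) W) :=
      div_le_div_of_nonneg_right h4 (by positivity)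
    refine h5.trans (le_of_eq ?_)
    rw [div_pow, one_pow, ← pow_mul, div_mul_div_comm, mul_one, ← pow_add,
      div_eq_div_iff (by positivity) (by positivity), ← pow_add, ← pow_add]
    have hV : Module.finrank F (V d (low d W)) = Module.finrank F (V d W) := by rw [V_low]
    congr 1
    rw [hj, hV]
    ring
  have hmaps : ∀ W ∈ WW F n (d + 1), φ W ∈ (WW F n d) ×ˢ (Finset.range (n + 1)) := by
    intro W _
    rw [Finset.mem_product]
    refine ⟨low_mem W, ?_⟩
    rw [Finset.mem_range]
    have h1 : Module.finrank (RatFunc F) W ≤ n := by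
      have := Submodule.finrank_le W
      simpa using this
    simp only [hφ]
    omega
  unfold Psi
  calc ∑ W ∈ WW F n (d + 1), β ^ (Module.finrank F (V (d + 1) W)) /
        β ^ ((d + 1) * Module.finrank (RatFunc F) W)
      ≤ ∑ W ∈ WW F n (d + 1), T (φ W) := Finset.sum_le_sum hterm
    _ = ∑ p ∈ (WW F n d) ×ˢ (Finset.range (n + 1)),
          ∑ W ∈ (WW F n (d + 1)).filter (fun W => φ W = p), T (φ W) :=
        (Finset.sum_fiberwise_of_maps_to hmaps _).symm
    _ ≤ ∑ p ∈ (WW F n d) ×ˢ (Finset.range (n + 1)),
          ((Fintype.card F : ℝ) ^ (n * (d + 1))) ^ p.2 * T p := by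
        refine Finset.sum_le_sum (fun p _ => ?_)
        have h1 : ∑ W ∈ (WW F n (d + 1)).filter (fun W => φ W = p), T (φ W) =
            ∑ W ∈ (WW F n (d + 1)).filter (fun W => φ W = p), T p := by
          refine Finset.sum_congr rfl (fun W hW => ?_)
          rw [(Finset.mem_filter.mp hW).2]
        rw [h1, Finset.sum_const, nsmul_eq_mul]
        have hTp : 0 ≤ T p := by simp only [hT]; positivity
        apply mul_le_mul_of_nonneg_right _ hTp
        have h2 : (WW F n (d + 1)).filter (fun W => φ W = p) ⊆
            (WW F n (d + 1)).filter (fun W => low d W = p.1 ∧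
              Module.finrank (RatFunc F) W = Module.finrank (RatFunc F) p.1 + p.2) := by
          intro W hW
          rw [Finset.mem_filter] at hW ⊢
          have hp1 : low d W = p.1 := congrArg Prod.fst hW.2
          have hp2 : Module.finrank (RatFunc F) W - Module.finrank (RatFunc F) (low d W) = p.2 :=
            congrArg Prod.snd hW.2
          refine ⟨hW.1, hp1, ?_⟩
          have h3 : Module.finrank (RatFunc F) (low d W) ≤ Module.finrank (RatFunc F) W :=
            Submodule.finrank_mono (low_le d W)
          rw [hp1] at h3 hp2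
          omega
        have h3 := (Finset.card_le_card h2).trans (fiber_card (d := d) (j := p.2) p.1)
        exact_mod_cast h3
    _ = (∑ W ∈ WW F n d, β ^ (Module.finrank F (V d W)) /
          β ^ (d * Module.finrank (RatFunc F) W)) *
        ∑ j ∈ Finset.range (n + 1), (((Fintype.card F : ℝ) ^ (n * (d + 1))) / β ^ d) ^ j := by
        rw [Finset.sum_product, Finset.sum_mul_sum]
        refine Finset.sum_congr rfl (fun W _ => Finset.sum_congr rfl (fun j _ => ?_))
        simp only [hT]
        rw [div_pow (((Fintype.card F : ℝ) ^ (n * (d + 1)))) (β ^ d) j, div_pow 1 (β ^ d) j]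
        ring

end HF48
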