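import Pool.Agent.helper48.HF.B2

open Polynomial

namespace HF48

variable {F : Type} [Field F] [Fintype F]

theorem Psi_zero {n : ℕ} (β : ℝ) (hβ : 1 ≤ β) : Psi F n β 0 ≤ 1 := by
  have hβ0 : 0 < β := by linarith
  unfold Psi
  have hsub : WW F n 0 ⊆ {⊥} := by
    intro W hW
    rw [Finset.mem_singleton]
    exact isW_zero (mem_WW.mp hW)
  refine (Finset.sum_le_sum_of_subset_of_nonneg hsub (fun _ _ _ => by positivity)).trans ?_
  rw [Finset.sum_singleton]
  have h1 : Module.finrank F (V 0 (⊥ : Submodule (RatFunc F) (Fin n → RatFunc F))) = 0 := by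
    have h2 : V 0 (⊥ : Submodule (RatFunc F) (Fin n → RatFunc F)) = ⊥ := by
      rw [eq_bot_iff]
      intro x hx
      rw [Submodule.mem_bot]
      apply io_injective
      rw [io_zero]
      exact (Submodule.mem_bot _).mp hx.2
    rw [h2, finrank_bot]
  rw [h1]
  simp

theorem Psi_bound {n : ℕ} (β : ℝ) (hβ : (Fintype.card F : ℝ) ^ n < β) :
    ∃ C : ℝ, 0 < C ∧ ∀ d, Psi F n β d ≤ C := by
  have hQ : 1 ≤ (Fintype.card F : ℝ) := by
    exact_mod_cast Fintype.card_pos
  have hQn : 1 ≤ (Fintype.card F : ℝ) ^ n := one_le_pow₀ hQ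
  have hβ1 : 1 ≤ β := by linarith
  have hβ0 : 0 < β := by linarith
  set θ : ℝ := (Fintype.card F : ℝ) ^ n / β with hθ
  have hθ0 : 0 ≤ θ := by positivity
  have hθ1 : θ < 1 := (div_lt_one hβ0).mpr hβ
  set c : ℝ := n * ((Fintype.card F : ℝ) ^ n) ^ n with hc
  have hc0 : 0 ≤ c := by positivity
  have hfac : ∀ d : ℕ, ∑ j ∈ Finset.range (n + 1),
      (((Fintype.card F : ℝ) ^ (n * (d + 1))) / β ^ d) ^ j ≤ Real.exp (c * θ ^ d) := by
    intro d
    have hx : ((Fintype.card F : ℝ) ^ (n * (d + 1))) / β ^ d = (Fintype.card F : ℝ) ^ n * θ ^ d := by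
      rw [hθ, div_pow, ← pow_mul, ← mul_div_assoc, ← pow_add]
      congr 2
      ring
    have hθd0 : 0 ≤ θ ^ d := by positivity
    have hθd1 : θ ^ d ≤ 1 := pow_le_one₀ hθ0 hθ1.le
    rw [Finset.sum_range_succ', pow_zero]
    have h1 : ∀ j ∈ Finset.range n,
        (((Fintype.card F : ℝ) ^ (n * (d + 1))) / β ^ d) ^ (j + 1) ≤
          ((Fintype.card F : ℝ) ^ n) ^ n * θ ^ d := by
      intro j hj
      rw [Finset.mem_range] at hj
      rw [hx, mul_pow]
      apply mul_le_mul
      · exact pow_le_pow_right₀ hQn (by omega)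
      · calc (θ ^ d) ^ (j + 1) = (θ ^ d) ^ j * θ ^ d := pow_succ _ _
          _ ≤ 1 * θ ^ d := by
              apply mul_le_mul_of_nonneg_right _ hθd0
              exact pow_le_one₀ hθd0 hθd1
          _ = θ ^ d := one_mul _
      · positivity
      · positivity
    have h2 := Finset.sum_le_sum h1
    rw [Finset.sum_const, Finset.card_range, nsmul_eq_mul] at h2
    have h3 : (n : ℝ) * (((Fintype.card F : ℝ) ^ n) ^ n * θ ^ d) = c * θ ^ d := by
      rw [hc]; ring
    rw [h3] at h2
    have h4 := Real.add_one_le_exp (c * θ ^ d)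
    linarith
  refine ⟨Real.exp (c * (1 - θ)⁻¹), Real.exp_pos _, ?_⟩
  have key : ∀ d, Psi F n β d ≤ Real.exp (c * ∑ i ∈ Finset.range d, θ ^ i) := by
    intro d
    induction d with
    | zero => simpa using Psi_zero (F := F) (n := n) β hβ1
    | succ d ih =>
      refine (Psi_succ β hβ1 d).trans ?_
      calc Psi F n β d * ∑ j ∈ Finset.range (n + 1),
            (((Fintype.card F : ℝ) ^ (n * (d + 1))) / β ^ d) ^ j
          ≤ Real.exp (c * ∑ i ∈ Finset.range d, θ ^ i) * Real.exp (c * θ ^ d) := by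
            apply mul_le_mul ih (hfac d)
            · exact Finset.sum_nonneg (fun _ _ => by positivity)
            · exact (Real.exp_pos _).le
        _ = Real.exp (c * ∑ i ∈ Finset.range (d + 1), θ ^ i) := by
            rw [← Real.exp_add, Finset.sum_range_succ]
            ring_nf
  intro d
  refine (key d).trans ?_
  apply Real.exp_le_exp.mpr
  apply mul_le_mul_of_nonneg_left _ hc0
  have h1 := (summable_geometric_of_lt_one hθ0 hθ1).sum_le_tsum (Finset.range d)
    (fun i _ => pow_nonneg hθ0 i)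
  rwa [tsum_geometric_of_lt_one hθ0 hθ1] at h1

end HF48
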