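import Pool.Agent.helper48.HF.A2

open Polynomial

namespace HF48

variable {F : Type} [Field F] [Fintype F]

omit [Fintype F] in
/-- a vector of `U` is determined by at most `dim U` of its coordinates -/
theorem hfc_coords {n : ℕ} (U : Submodule (RatFunc F) (Fin n → RatFunc F)) :
    ∃ S : Finset (Fin n), S.card ≤ Module.finrank (RatFunc F) U ∧
      ∀ x ∈ U, (∀ j ∈ S, x j = 0) → x = 0 := by
  classical
  let f : Fin n → Module.Dual (RatFunc F) U := fun i =>
    (LinearMap.proj i).comp (Submodule.subtype U)
  obtain ⟨κ, a, ha, hsp, hli⟩ := exists_linearIndependent' (RatFunc F) f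
  have : Finite κ := Finite.of_injective a ha
  let _ : Fintype κ := Fintype.ofFinite κ
  have hc : Fintype.card κ ≤ Module.finrank (RatFunc F) U := by
    have h1 := hli.fintype_card_le_finrank
    rwa [Subspace.dual_finrank_eq] at h1
  refine ⟨Finset.univ.image a, Finset.card_image_le.trans ?_, ?_⟩
  · rw [Finset.card_univ]; exact hc
  · intro x hx h0
    have hz : ∀ φ ∈ Submodule.span (RatFunc F) (Set.range (f ∘ a)), φ ⟨x, hx⟩ = 0 := by
      intro φ hφ
      induction hφ using Submodule.span_induction with
      | mem φ hφ =>
        obtain ⟨j, rfl⟩ := hφ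
        exact h0 (a j) (Finset.mem_image_of_mem a (Finset.mem_univ j))
      | zero => rfl
      | add φ ψ _ _ h1 h2 => rw [LinearMap.add_apply, h1, h2, add_zero]
      | smul c φ _ h1 => rw [LinearMap.smul_apply, h1, smul_zero]
    funext i
    have hi : f i ∈ Submodule.span (RatFunc F) (Set.range (f ∘ a)) := by
      rw [hsp]; exact Submodule.subset_span ⟨i, rfl⟩
    exact hz (f i) hi

/-- Proof sketch: the coordinate functionals restricted to U span the dual of U, so there is a set S
of indices with card S = finrank U such that a vector of U vanishing on S is zero. Hence for u in the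
set, the restriction of u to S determines the vector io (u^a) (two of them with the same restriction
to S differ by a vector of U vanishing on S), hence determines u i ^ a for all i (io_injective), and
u i is one of at most a roots (nthRoots a c, Polynomial.card_nthRoots) of x^a = c in the domain F[X].
There are at most Q^(D * card S) restrictions (coefficients below D). -/
theorem card_pow_mem_le {n : ℕ} (a : ℕ) (ha : 0 < a) (D : ℕ)
    (U : Submodule (RatFunc F) (Fin n → RatFunc F)) :
    Nat.card {u : Fin n → F[X] // u ∈ L F n D ∧ io (fun i => u i ^ a) ∈ U} ≤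
      a ^ n * (Fintype.card F) ^ (D * Module.finrank (RatFunc F) U) := by
  classical
  obtain ⟨S, hS, hU⟩ := hfc_coords U
  -- two polynomials of degree below `D` with the same coefficients below `D`
  have hext : ∀ p q : F[X], p.degree < D → q.degree < D →
      (∀ e : Fin D, p.coeff e = q.coeff e) → p = q := by
    intro p q hp hq h
    ext e
    by_cases he : e < D
    · exact h ⟨e, he⟩
    · have h1 : ((D : ℕ) : WithBot ℕ) ≤ (e : WithBot ℕ) := by exact_mod_cast not_lt.mp he
      rw [coeff_eq_zero_of_degree_lt (hp.trans_le h1), coeff_eq_zero_of_degree_lt (hq.trans_le h1)]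
  let T := {u : Fin n → F[X] // u ∈ L F n D ∧ io (fun i => u i ^ a) ∈ U}
  haveI hT : Finite T := by
    refine Finite.of_injective (fun (u : T) (i : Fin n) (e : Fin D) => (u.1 i).coeff e) ?_
    intro u v huv
    apply Subtype.ext
    funext i
    exact hext _ _ (mem_L.mp u.2.1 i) (mem_L.mp v.2.1 i) (fun e => congrFun (congrFun huv i) e)
  haveI : Fintype T := Fintype.ofFinite T
  change Nat.card T ≤ _
  rw [Nat.card_eq_fintype_card, ← Finset.card_univ]
  let g : T → (S → Fin D → F) := fun u j e => (u.1 j.1).coeff e
  have hfib : ∀ b ∈ (Finset.univ : Finset T).image g,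
      ((Finset.univ : Finset T).filter (fun u => g u = b)).card ≤ a ^ n := by
    intro b hb
    obtain ⟨u0, -, hu0⟩ := Finset.mem_image.mp hb
    have hroot : ∀ u : T, g u = b → ∀ i, u.1 i ∈ (nthRoots a (u0.1 i ^ a)).toFinset := by
      intro u hu i
      rw [Multiset.mem_toFinset, mem_nthRoots ha]
      have hsub : io (fun i => u.1 i ^ a) - io (fun i => u0.1 i ^ a) ∈ U :=
        U.sub_mem u.2.2 u0.2.2
      have hzero : io (fun i => u.1 i ^ a) - io (fun i => u0.1 i ^ a) = 0 := by
        refine hU _ hsub ?_
        intro j hj
        have hj2 : u.1 j = u0.1 j := by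
          refine hext _ _ (mem_L.mp u.2.1 j) (mem_L.mp u0.2.1 j) ?_
          intro e
          have := congrFun (congrFun (hu.trans hu0.symm) ⟨j, hj⟩) e
          exact this
        simp only [Pi.sub_apply, io, hj2, sub_self]
      have h2 := io_injective (sub_eq_zero.mp hzero)
      exact congrFun h2 i
    have hle : ((Finset.univ : Finset T).filter (fun u => g u = b)).card ≤
        (Fintype.piFinset (fun i => (nthRoots a (u0.1 i ^ a)).toFinset)).card := by
      refine Finset.card_le_card_of_injOn (fun u => u.1) ?_ ?_
      · intro u hu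
        have hu2 : g u = b := (Finset.mem_filter.mp hu).2
        exact Finset.mem_coe.mpr (Fintype.mem_piFinset.mpr (hroot u hu2))
      · intro u _ v _ huv
        exact Subtype.ext huv
    refine hle.trans ?_
    rw [Fintype.card_piFinset]
    calc ∏ i, (nthRoots a (u0.1 i ^ a)).toFinset.card ≤ ∏ _i : Fin n, a :=
          Finset.prod_le_prod' (fun i _ =>
            (Multiset.toFinset_card_le _).trans (card_nthRoots a _))
      _ = a ^ n := by rw [Finset.prod_const, Finset.card_univ, Fintype.card_fin]
  have h1 := Finset.card_le_mul_card_image (Finset.univ : Finset T) (a ^ n) hfib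
  refine h1.trans (Nat.mul_le_mul_left _ ?_)
  refine (Finset.card_le_univ _).trans ?_
  rw [Fintype.card_fun, Fintype.card_fun, Fintype.card_fin, Fintype.card_coe, ← pow_mul]
  exact Nat.pow_le_pow_right Fintype.card_pos (Nat.mul_le_mul_left _ hS)

end HF48
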