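import Pool.Agent.helper48.HF.A2

open Polynomial

namespace HF48

variable {F : Type} [Field F] [Fintype F]

/-- coefficients of the q-th power, q = p^e, in characteristic p -/
theorem coeff_pow_q (p e : ℕ) [Fact p.Prime] [CharP F p] (f : F[X]) (n : ℕ) :
    (f ^ (p ^ e)).coeff n = if p ^ e ∣ n then (f.coeff (n / p ^ e)) ^ (p ^ e) else 0 := by
  have hp : 0 < p ^ e := pow_pos (Fact.out : p.Prime).pos e
  rw [← map_iterateFrobenius_expand p f e, coeff_map, coeff_expand hp]
  split_ifs with h
  · rw [iterateFrobenius_def]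
  · exact map_zero _

/-- the coefficient of the digit expansion at `q k + r` is the q-th power of the coefficient
number `k` of the digit number `r` -/
theorem coeff_dig_sum (p e : ℕ) [Fact p.Prime] [CharP F p] (f : Fin (p ^ e) → F[X])
    (r : Fin (p ^ e)) (k : ℕ) :
    (∑ j : Fin (p ^ e), X ^ (j : ℕ) * (f j) ^ (p ^ e)).coeff (p ^ e * k + r)
      = ((f r).coeff k) ^ (p ^ e) := by
  have hp : 0 < p ^ e := pow_pos (Fact.out : p.Prime).pos e
  rw [finsetSum_coeff, Finset.sum_eq_single r]
  · rw [coeff_X_pow_mul', if_pos (Nat.le_add_left _ _), Nat.add_sub_cancel, coeff_pow_q,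
      if_pos (Dvd.intro k rfl), Nat.mul_div_cancel_left k hp]
  · intro j _ hj
    rw [coeff_X_pow_mul']
    split_ifs with h
    · rw [coeff_pow_q, if_neg]
      intro hd
      apply hj
      have h1 : (p ^ e * k + (r : ℕ)) ≡ (j : ℕ) [MOD p ^ e] :=
        ((Nat.modEq_iff_dvd' h).mpr hd).symm
      have h2 : (r : ℕ) ≡ (j : ℕ) [MOD p ^ e] := by
        have h3 : (p ^ e * k + (r : ℕ)) ≡ (r : ℕ) [MOD p ^ e] := by
          unfold Nat.ModEq
          rw [Nat.mul_add_mod]
        exact h3.symm.trans h1
      have h4 := Nat.ModEq.eq_of_lt_of_lt h2 r.isLt j.isLt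
      exact (Fin.ext h4).symm
    · rfl
  · intro h
    exact absurd (Finset.mem_univ r) h

/-- every element of a finite field of characteristic p is a q-th power, q = p^e -/
theorem pow_q_surj (p e : ℕ) [Fact p.Prime] [CharP F p] :
    Function.Surjective (fun x : F => x ^ (p ^ e)) := by
  have h : Function.Injective (fun x : F => x ^ (p ^ e)) := by
    have h1 : Function.Injective (iterateFrobenius F p e) := (iterateFrobenius F p e).injective
    intro x y hxy
    apply h1
    simpa [iterateFrobenius_def] using hxy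
  exact Finite.injective_iff_surjective.mp h

/-- q-digits of a polynomial over a finite (perfect) field, q = p^e: write each coefficient as a
q-th power and split the exponents modulo q. -/
theorem exists_dig (p e m n : ℕ) [Fact p.Prime] [CharP F p] (u : Fin n → F[X])
    (hu : u ∈ L F n (p ^ e * m)) :
    ∃ η : Fin (p ^ e) → (Fin n → F[X]), (∀ j, η j ∈ L F n m) ∧
      ∀ i, u i = ∑ j : Fin (p ^ e), X ^ (j : ℕ) * (η j i) ^ (p ^ e) := by
  classical
  have hp : 0 < p ^ e := pow_pos (Fact.out : p.Prime).pos e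
  choose g hg using pow_q_surj (F := F) p e
  have hg' : ∀ x : F, (g x) ^ (p ^ e) = x := hg
  have hco : ∀ (j : Fin (p ^ e)) (i : Fin n) (k : ℕ),
      (∑ l ∈ Finset.range m, monomial l (g ((u i).coeff (p ^ e * l + j)))).coeff k
        = if k < m then g ((u i).coeff (p ^ e * k + j)) else 0 := by
    intro j i k
    rw [finsetSum_coeff]
    simp only [coeff_monomial]
    rw [Finset.sum_ite_eq']
    simp only [Finset.mem_range]
  refine ⟨fun j i => ∑ l ∈ Finset.range m, monomial l (g ((u i).coeff (p ^ e * l + j))), ?_, ?_⟩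
  · intro j
    rw [mem_L]
    intro i
    rw [degree_lt_iff_coeff_zero]
    intro k hk
    rw [hco, if_neg (Nat.not_lt.mpr hk)]
  · intro i
    ext N
    have hN : N = p ^ e * (N / p ^ e) + ((⟨N % p ^ e, Nat.mod_lt N hp⟩ : Fin (p ^ e)) : ℕ) :=
      (Nat.div_add_mod N (p ^ e)).symm
    have key := coeff_dig_sum (F := F) p e
      (fun j => ∑ l ∈ Finset.range m, monomial l (g ((u i).coeff (p ^ e * l + j))))
      ⟨N % p ^ e, Nat.mod_lt N hp⟩ (N / p ^ e)
    rw [← hN, hco] at key
    rw [key]
    split_ifs with h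
    · rw [hg', ← hN]
    · rw [zero_pow hp.ne']
      rw [mem_L] at hu
      have h1 := hu i
      rw [degree_lt_iff_coeff_zero] at h1
      apply h1
      have h2 : m ≤ N / p ^ e := Nat.not_lt.mp h
      calc p ^ e * m ≤ p ^ e * (N / p ^ e) := Nat.mul_le_mul_left _ h2
        _ ≤ N := Nat.mul_div_le N (p ^ e)

/-- the digits are unique: (f j)^q is a polynomial in X^q, exponents modulo q are separate -/
theorem dig_unique (p e : ℕ) [Fact p.Prime] [CharP F p] (f : Fin (p ^ e) → F[X])
    (h : ∑ j : Fin (p ^ e), X ^ (j : ℕ) * (f j) ^ (p ^ e) = 0) : ∀ j, f j = 0 := by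
  have hp : 0 < p ^ e := pow_pos (Fact.out : p.Prime).pos e
  intro j
  ext k
  have key := coeff_dig_sum (F := F) p e f j k
  rw [h, coeff_zero] at key
  rw [coeff_zero]
  exact (pow_eq_zero_iff hp.ne').mp key.symm

end HF48
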