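import Mathlib

open Polynomial

namespace HF48

variable (F : Type) [Field F]

/-- vectors of polynomials of degree below `d` -/
noncomputable def L (n d : ℕ) : Submodule F (Fin n → F[X]) :=
  Submodule.pi Set.univ (fun _ => degreeLT F d)

variable {F}

/-- the vector of polynomials as a vector of rational functions -/
noncomputable def io {n : ℕ} (x : Fin n → F[X]) : Fin n → RatFunc F :=
  fun i => algebraMap F[X] (RatFunc F) (x i)

/-- vectors of polynomials of degree below `d` which lie in `W` -/
noncomputable def V {n : ℕ} (d : ℕ) (W : Submodule (RatFunc F) (Fin n → RatFunc F)) :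
    Submodule F (Fin n → F[X]) where
  carrier := {x | x ∈ L F n d ∧ io x ∈ W}
  zero_mem' := by
    refine ⟨Submodule.zero_mem _, ?_⟩
    have : io (0 : Fin n → F[X]) = 0 := by
      funext i; simp [io]
    simp only [this]
    exact Submodule.zero_mem _
  add_mem' := by
    rintro x y ⟨hx, hx'⟩ ⟨hy, hy'⟩
    refine ⟨Submodule.add_mem _ hx hy, ?_⟩
    have : io (x + y) = io x + io y := by
      funext i; simp [io]
    simp only [this]
    exact Submodule.add_mem _ hx' hy'
  smul_mem' := by
    rintro c x ⟨hx, hx'⟩
    refine ⟨Submodule.smul_mem _ c hx, ?_⟩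
    have : io (c • x) = (algebraMap F[X] (RatFunc F) (C c)) • io x := by
      funext i
      simp [io, Polynomial.smul_eq_C_mul]
    simp only [this]
    exact Submodule.smul_mem _ _ hx'

theorem mem_L {n d : ℕ} {x : Fin n → F[X]} : x ∈ L F n d ↔ ∀ i, (x i).degree < d := by
  simp [L, Submodule.mem_pi, mem_degreeLT]

theorem mem_V {n d : ℕ} {W : Submodule (RatFunc F) (Fin n → RatFunc F)} {x : Fin n → F[X]} :
    x ∈ V d W ↔ x ∈ L F n d ∧ io x ∈ W := Iff.rfl

theorem io_injective {n : ℕ} : Function.Injective (io : (Fin n → F[X]) → (Fin n → RatFunc F)) := by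
  intro x y h
  funext i
  have := congrFun h i
  exact IsFractionRing.injective F[X] (RatFunc F) this

theorem io_zero {n : ℕ} : io (0 : Fin n → F[X]) = 0 := by
  funext i; simp [io]

theorem io_add {n : ℕ} (x y : Fin n → F[X]) : io (x + y) = io x + io y := by
  funext i; simp [io]

theorem io_sum {n : ℕ} {ι : Type} (s : Finset ι) (x : ι → (Fin n → F[X])) :
    io (∑ j ∈ s, x j) = ∑ j ∈ s, io (x j) := by
  classical
  induction s using Finset.induction_on with
  | empty => simp [io_zero]
  | insert a s ha ih => rw [Finset.sum_insert ha, Finset.sum_insert ha, io_add, ih]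

theorem L_mono {n d d' : ℕ} (h : d ≤ d') : L F n d ≤ L F n d' := by
  intro x hx
  rw [mem_L] at hx ⊢
  intro i
  exact lt_of_lt_of_le (hx i) (by exact_mod_cast h)

theorem V_mono {n d d' : ℕ} (h : d ≤ d') (W : Submodule (RatFunc F) (Fin n → RatFunc F)) :
    V d W ≤ V d' W := fun _ hx => ⟨L_mono h hx.1, hx.2⟩

end HF48
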