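import Pool.Agent.helper48.HF.B3

open Polynomial

namespace HF48

section perp
variable {K : Type} [Field K]

/-- the pairing `x ↦ (w ↦ ∑ c i * w i * x i)` -/
noncomputable def pr {n : ℕ} (c : Fin n → K) : (Fin n → K) →ₗ[K] Module.Dual K (Fin n → K) where
  toFun x :=
    { toFun := fun w => ∑ i, c i * w i * x i
      map_add' := by
        intro w w'
        rw [← Finset.sum_add_distrib]
        refine Finset.sum_congr rfl (fun i _ => ?_)
        simp only [Pi.add_apply]
        ring
      map_smul' := by
        intro r w
        simp only [Pi.smul_apply, smul_eq_mul, RingHom.id_apply, Finset.mul_sum]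
        refine Finset.sum_congr rfl (fun i _ => ?_)
        ring }
  map_add' := by
    intro x y
    apply LinearMap.ext
    intro w
    show ∑ i, c i * w i * (x + y) i = ∑ i, c i * w i * x i + ∑ i, c i * w i * y i
    rw [← Finset.sum_add_distrib]
    refine Finset.sum_congr rfl (fun i _ => ?_)
    simp only [Pi.add_apply]
    ring
  map_smul' := by
    intro r x
    apply LinearMap.ext
    intro w
    show ∑ i, c i * w i * (r • x) i = r • ∑ i, c i * w i * x i
    rw [smul_eq_mul, Finset.mul_sum]
    refine Finset.sum_congr rfl (fun i _ => ?_)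
    simp only [Pi.smul_apply, smul_eq_mul]
    ring

theorem pr_apply {n : ℕ} (c x w : Fin n → K) : pr c x w = ∑ i, c i * w i * x i := rfl

theorem pr_injective {n : ℕ} (c : Fin n → K) (hc : ∀ i, c i ≠ 0) :
    Function.Injective (pr c) := by
  classical
  rw [injective_iff_map_eq_zero]
  intro x hx
  funext i
  have h1 : pr c x (Pi.single i 1) = 0 := by rw [hx]; rfl
  rw [pr_apply] at h1
  have h2 : ∑ j, c j * (Pi.single i (1 : K) : Fin n → K) j * x j = c i * x i := by
    rw [Finset.sum_eq_single i]
    · simp
    · intro j _ hj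
      simp [Pi.single_eq_of_ne hj]
    · intro h; exact absurd (Finset.mem_univ i) h
  rw [h2] at h1
  exact (mul_eq_zero.mp h1).resolve_left (hc i)

/-- orthogonal complement for the diagonal form `c` -/
noncomputable def perp {n : ℕ} (c : Fin n → K) (W : Submodule K (Fin n → K)) :
    Submodule K (Fin n → K) := Submodule.comap (pr c) W.dualAnnihilator

theorem mem_perp {n : ℕ} {c : Fin n → K} {W : Submodule K (Fin n → K)} {x : Fin n → K} :
    x ∈ perp c W ↔ ∀ w ∈ W, ∑ i, c i * w i * x i = 0 := by
  unfold perp
  rw [Submodule.mem_comap, Submodule.mem_dualAnnihilator]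
  rfl

theorem finrank_perp_le {n : ℕ} (c : Fin n → K) (hc : ∀ i, c i ≠ 0)
    (W : Submodule K (Fin n → K)) :
    Module.finrank K (perp c W) + Module.finrank K W ≤ n := by
  have h1 := Subspace.finrank_add_finrank_dualAnnihilator_eq W
  have h2 : Submodule.map (pr c) (perp c W) ≤ W.dualAnnihilator := Submodule.map_comap_le _ _
  have h3 := Submodule.finrank_mono h2
  have h4 := (Submodule.equivMapOfInjective (pr c) (pr_injective c hc) (perp c W)).finrank_eq
  have h5 : Module.finrank K (Fin n → K) = n := by simp
  omega

theorem mem_perp_span {n : ℕ} {c : Fin n → K} {S : Set (Fin n → K)} {x : Fin n → K}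
    (h : ∀ w ∈ S, ∑ i, c i * w i * x i = 0) : x ∈ perp c (Submodule.span K S) := by
  rw [mem_perp]
  intro w hw
  have h1 : S ⊆ (LinearMap.ker (pr c x) : Set (Fin n → K)) := by
    intro w hw
    exact h w hw
  exact (Submodule.span_le.mpr h1) hw

end perp

end HF48
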