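import Pool.Agent.helper48.HF.E0
import Pool.Agent.helper48.HF.C
import Pool.Agent.helper48.HF.D

open Polynomial

namespace HF48

variable {F : Type} [Field F] [Fintype F]

theorem isotropic_digits (p e a n : ℕ) [Fact p.Prime] [CharP F p] (ε : Fin n → F)
    (hε : ∀ i, ε i ^ (p ^ e) = ε i) (u : Fin n → F[X]) (η : Fin (p ^ e) → Fin n → F[X])
    (hη : ∀ i, u i = ∑ j : Fin (p ^ e), X ^ (j : ℕ) * (η j i) ^ (p ^ e))
    (h : ∑ i, C (ε i) * u i ^ (a * p ^ e + 1) = 0) :
    ∀ j, ∑ i, C (ε i) * η j i * u i ^ a = 0 := by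
  apply dig_unique p e
  rw [← h]
  have h1 : ∀ j : Fin (p ^ e), (∑ i, C (ε i) * η j i * u i ^ a) ^ (p ^ e) =
      ∑ i, C (ε i) * (η j i) ^ (p ^ e) * (u i) ^ (a * p ^ e) := by
    intro j
    rw [sum_pow_char_pow]
    refine Finset.sum_congr rfl (fun i _ => ?_)
    rw [mul_pow, mul_pow, ← C_pow, hε, ← pow_mul]
  calc ∑ j : Fin (p ^ e), X ^ (j : ℕ) * (∑ i, C (ε i) * η j i * u i ^ a) ^ (p ^ e)
      = ∑ j : Fin (p ^ e), ∑ i, C (ε i) * (u i) ^ (a * p ^ e) *
          (X ^ (j : ℕ) * (η j i) ^ (p ^ e)) := by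
        refine Finset.sum_congr rfl (fun j _ => ?_)
        rw [h1, Finset.mul_sum]
        refine Finset.sum_congr rfl (fun i _ => ?_)
        ring
    _ = ∑ i, ∑ j : Fin (p ^ e), C (ε i) * (u i) ^ (a * p ^ e) *
          (X ^ (j : ℕ) * (η j i) ^ (p ^ e)) := Finset.sum_comm
    _ = ∑ i, C (ε i) * u i ^ (a * p ^ e + 1) := by
        refine Finset.sum_congr rfl (fun i _ => ?_)
        rw [← Finset.mul_sum, ← hη i, pow_succ]
        ring

omit [Fintype F] in
theorem io_sum_zero {n : ℕ} (ε : Fin n → F) (x y : Fin n → F[X])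
    (h : ∑ i, C (ε i) * x i * y i = 0) :
    ∑ i, (algebraMap F[X] (RatFunc F) (C (ε i))) * io x i * io y i = 0 := by
  have h1 := congrArg (algebraMap F[X] (RatFunc F)) h
  rw [map_sum, map_zero] at h1
  rw [← h1]
  refine Finset.sum_congr rfl (fun i _ => ?_)
  rw [map_mul, map_mul]
  rfl

section count
variable (p e a n m : ℕ) [Fact p.Prime] [CharP F p]

/-- chosen digits -/
noncomputable def dg (u : L F n (p ^ e * m)) : Fin (p ^ e) → Fin n → F[X] :=
  (exists_dig p e m n (u : Fin n → F[X]) u.2).choose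

theorem dg_mem (u : L F n (p ^ e * m)) (j : Fin (p ^ e)) : dg p e n m u j ∈ L F n m :=
  (exists_dig p e m n (u : Fin n → F[X]) u.2).choose_spec.1 j

theorem dg_spec (u : L F n (p ^ e * m)) (i : Fin n) :
    (u : Fin n → F[X]) i = ∑ j : Fin (p ^ e), X ^ (j : ℕ) * (dg p e n m u j i) ^ (p ^ e) :=
  (exists_dig p e m n (u : Fin n → F[X]) u.2).choose_spec.2 i

theorem dg_inj {u v : L F n (p ^ e * m)} (h : dg p e n m u = dg p e n m v) : u = v := by
  apply Subtype.ext
  funext i
  rw [dg_spec p e n m u i, dg_spec p e n m v i, h]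

/-- the space spanned by the digits -/
noncomputable def Wof (u : L F n (p ^ e * m)) : Submodule (RatFunc F) (Fin n → RatFunc F) :=
  Submodule.span (RatFunc F) (Set.range (fun j => io (dg p e n m u j)))

theorem dg_mem_V (u : L F n (p ^ e * m)) (j : Fin (p ^ e)) :
    dg p e n m u j ∈ V m (Wof p e n m u) :=
  ⟨dg_mem p e n m u j, Submodule.subset_span ⟨j, rfl⟩⟩

theorem Wof_mem (u : L F n (p ^ e * m)) : Wof p e n m u ∈ WW F n m := by
  rw [mem_WW]
  apply le_antisymm
  · exact low_le m (Wof p e n m u)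
  · unfold Wof
    apply Submodule.span_le.mpr
    rintro _ ⟨j, rfl⟩
    exact Submodule.subset_span ⟨_, dg_mem_V p e n m u j, rfl⟩

/-- the solutions -/
def Sol (ε : Fin n → F) : Type :=
  {u : L F n (p ^ e * m) // ∑ i, C (ε i) * ((u : Fin n → F[X]) i) ^ (a * p ^ e + 1) = 0}

instance finSol (ε : Fin n → F) : Finite (Sol p e a n m ε) := by
  have h1 : Finite (L F n (p ^ e * m)) := (finite_L n (p ^ e * m)).to_subtype
  unfold Sol
  infer_instance

theorem sol_le_one (ε : Fin n → F) (W : Submodule (RatFunc F) (Fin n → RatFunc F)) :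
    Nat.card {u : Sol p e a n m ε // Wof p e n m u.1 = W} ≤
      (Fintype.card F ^ Module.finrank F (V m W)) ^ (p ^ e) := by
  have hfin : Finite (V m W) := ((finite_L n m).subset (V_le_L W)).to_subtype
  have h1 : Nat.card {u : Sol p e a n m ε // Wof p e n m u.1 = W} ≤
      Nat.card (Fin (p ^ e) → V m W) := by
    apply Nat.card_le_card_of_injective
      (fun u => fun j => (⟨dg p e n m u.1.1 j, by
        have := dg_mem_V p e n m u.1.1 j
        rwa [u.2] at this⟩ : V m W))
    intro u v huv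
    apply Subtype.ext
    apply Subtype.ext
    apply dg_inj p e n m
    funext j
    exact congrArg Subtype.val (congrFun huv j)
  refine h1.trans (le_of_eq ?_)
  rw [Nat.card_fun, Nat.card_eq_fintype_card (α := Fin (p ^ e)), Fintype.card_fin,
    Module.natCard_eq_pow_finrank (K := F), Nat.card_eq_fintype_card]

theorem sol_le_two (ha : 0 < a) (ε : Fin n → F) (hε0 : ∀ i, ε i ≠ 0)
    (hε : ∀ i, ε i ^ (p ^ e) = ε i)
    (W : Submodule (RatFunc F) (Fin n → RatFunc F)) :
    Nat.card {u : Sol p e a n m ε // Wof p e n m u.1 = W} ≤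
      a ^ n * Fintype.card F ^ (p ^ e * m * (n - Module.finrank (RatFunc F) W)) := by
  set c : Fin n → RatFunc F := fun i => algebraMap F[X] (RatFunc F) (C (ε i)) with hc
  have hc0 : ∀ i, c i ≠ 0 := by
    intro i h
    apply hε0 i
    have h1 : C (ε i) = (0 : F[X]) := by
      apply IsFractionRing.injective F[X] (RatFunc F)
      rw [map_zero]
      exact h
    exact C_eq_zero.mp h1
  have key : ∀ u : Sol p e a n m ε,
      io (fun i => ((u.1 : L F n (p ^ e * m)) : Fin n → F[X]) i ^ a) ∈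
        perp c (Wof p e n m u.1) := by
    intro u
    unfold Wof
    apply mem_perp_span
    rintro _ ⟨j, rfl⟩
    apply io_sum_zero
    exact isotropic_digits p e a n ε hε _ _ (dg_spec p e n m u.1) u.2 j
  have h0 : Finite {u : Fin n → F[X] // u ∈ L F n (p ^ e * m) ∧ io (fun i => u i ^ a) ∈ perp c W} :=
    ((finite_L n (p ^ e * m)).subset (fun u hu => hu.1)).to_subtype
  have h1 : Nat.card {u : Sol p e a n m ε // Wof p e n m u.1 = W} ≤
      Nat.card {u : Fin n → F[X] // u ∈ L F n (p ^ e * m) ∧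
        io (fun i => u i ^ a) ∈ perp c W} := by
    apply Nat.card_le_card_of_injective
      (fun u => (⟨(u.1.1 : Fin n → F[X]), u.1.1.2, by
        have h := key u.1
        rw [u.2] at h
        exact h⟩ :
        {u : Fin n → F[X] // u ∈ L F n (p ^ e * m) ∧ io (fun i => u i ^ a) ∈ perp c W}))
    intro u v huv
    have h := Subtype.ext_iff.mp huv
    apply Subtype.ext
    apply Subtype.ext
    apply Subtype.ext
    exact h
  refine h1.trans ((card_pow_mem_le a ha (p ^ e * m) (perp c W)).trans ?_)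
  apply Nat.mul_le_mul_left
  apply Nat.pow_le_pow_right Fintype.card_pos
  apply Nat.mul_le_mul_left
  have := finrank_perp_le c hc0 W
  omega

end count

end HF48
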