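import Pool.Agent.helper48.HF.E1

open Polynomial

namespace HF48

variable {F : Type} [Field F] [Fintype F]

theorem card_sol_eq (p e a n m : ℕ) [Fact p.Prime] [CharP F p] (ε : Fin n → F) :
    Nat.card (Sol p e a n m ε) =
      ∑ W ∈ WW F n m, Nat.card {u : Sol p e a n m ε // Wof p e n m u.1 = W} := by
  classical
  have hft : Fintype (Sol p e a n m ε) := Fintype.ofFinite _
  rw [Nat.card_eq_fintype_card, ← Finset.card_univ,
    Finset.card_eq_sum_card_fiberwise (f := fun u : Sol p e a n m ε => Wof p e n m u.1)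
      (t := WW F n m) (fun u _ => Wof_mem p e n m u.1)]
  refine Finset.sum_congr rfl (fun W _ => ?_)
  rw [Nat.card_eq_fintype_card, Fintype.card_subtype]

theorem le_of_two {N A B : ℕ} (h1 : N ≤ A) (h2 : N ≤ B) (x y : ℝ) (hx : 0 ≤ x) (hy : 0 ≤ y)
    (hA : (A : ℝ) ≤ x ^ 2) (hB : (B : ℝ) ≤ y ^ 2) : (N : ℝ) ≤ x * y := by
  have h3 : (N : ℝ) ≤ x ^ 2 := le_trans (by exact_mod_cast h1) hA
  have h4 : (N : ℝ) ≤ y ^ 2 := le_trans (by exact_mod_cast h2) hB
  have h5 : (N : ℝ) ^ 2 ≤ (x * y) ^ 2 := by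
    calc (N : ℝ) ^ 2 = N * N := by ring
      _ ≤ x ^ 2 * y ^ 2 := mul_le_mul h3 h4 (by positivity) (by positivity)
      _ = (x * y) ^ 2 := by ring
  exact (pow_le_pow_iff_left₀ (by positivity) (by positivity) (by norm_num)).mp h5

theorem sol_bound (p e a n : ℕ) [Fact p.Prime] [CharP F p] (ha : 0 < a) (ε : Fin n → F)
    (hε0 : ∀ i, ε i ≠ 0) (hε : ∀ i, ε i ^ (p ^ e) = ε i) (hn : 2 * n < p ^ e) :
    ∃ C : ℝ, 0 < C ∧ ∀ m, (Nat.card (Sol p e a n m ε) : ℝ) ≤
      C * (Real.sqrt (Fintype.card F)) ^ (p ^ e * m * n) := by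
  set ρ : ℝ := Real.sqrt (Fintype.card F) with hρ
  have hQ2 : (1 : ℝ) < Fintype.card F := by exact_mod_cast Fintype.one_lt_card
  have hρ2 : ρ ^ 2 = Fintype.card F := Real.sq_sqrt (by positivity)
  have hρ1 : 1 < ρ := by
    rw [hρ]
    exact (Real.lt_sqrt (by norm_num)).mpr (by simpa using hQ2)
  have hρ0 : 0 < ρ := by linarith
  set β : ℝ := ρ ^ (p ^ e) with hβ
  have hβ0 : 0 < β := by positivity
  have hβQ : (Fintype.card F : ℝ) ^ n < β := by
    rw [← hρ2, ← pow_mul, hβ]
    exact pow_lt_pow_right₀ hρ1 hn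
  obtain ⟨C, hC0, hC⟩ := Psi_bound (F := F) (n := n) β hβQ
  have ha1 : (1 : ℝ) ≤ (a : ℝ) ^ n := one_le_pow₀ (by exact_mod_cast ha)
  refine ⟨(a : ℝ) ^ n * C, by positivity, ?_⟩
  intro m
  rw [card_sol_eq p e a n m ε, Nat.cast_sum]
  have hW : ∀ W ∈ WW F n m,
      (Nat.card {u : Sol p e a n m ε // Wof p e n m u.1 = W} : ℝ) ≤
        (a : ℝ) ^ n * β ^ (m * n) * (β ^ (Module.finrank F (V m W)) /
          β ^ (m * Module.finrank (RatFunc F) W)) := by
    intro W _
    have hr : Module.finrank (RatFunc F) W ≤ n := by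
      have := Submodule.finrank_le W
      simpa using this
    have h1 := sol_le_one p e a n m ε W
    have h2 := sol_le_two p e a n m ha ε hε0 hε W
    have h3 := le_of_two h1 h2 (β ^ (Module.finrank F (V m W)))
      ((a : ℝ) ^ n * β ^ (m * (n - Module.finrank (RatFunc F) W))) (by positivity) (by positivity)
      (by
        push_cast
        rw [hβ, ← hρ2, ← pow_mul, ← pow_mul, ← pow_mul, ← pow_mul]
        apply le_of_eq
        congr 1
        ring)
      (by
        push_cast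
        generalize n - Module.finrank (RatFunc F) W = k
        calc (a : ℝ) ^ n * (Fintype.card F : ℝ) ^ (p ^ e * m * k)
            ≤ ((a : ℝ) ^ n) ^ 2 * (Fintype.card F : ℝ) ^ (p ^ e * m * k) :=
              mul_le_mul_of_nonneg_right (by nlinarith) (by positivity)
          _ = ((a : ℝ) ^ n * β ^ (m * k)) ^ 2 := by
              rw [mul_pow, hβ, ← hρ2]
              congr 1
              rw [← pow_mul, ← pow_mul, ← pow_mul]
              congr 1
              ring)
    refine h3.trans (le_of_eq ?_)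
    have h4 : β ^ (m * (n - Module.finrank (RatFunc F) W)) =
        β ^ (m * n) / β ^ (m * Module.finrank (RatFunc F) W) := by
      rw [eq_div_iff (by positivity), ← pow_add]
      congr 1
      rw [← mul_add, Nat.sub_add_cancel hr]
    rw [h4]
    ring
  refine (Finset.sum_le_sum hW).trans ?_
  rw [← Finset.mul_sum]
  have h5 : ∑ W ∈ WW F n m, β ^ (Module.finrank F (V m W)) /
      β ^ (m * Module.finrank (RatFunc F) W) ≤ C := hC m
  calc (a : ℝ) ^ n * β ^ (m * n) * ∑ W ∈ WW F n m, β ^ (Module.finrank F (V m W)) /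
        β ^ (m * Module.finrank (RatFunc F) W)
      ≤ (a : ℝ) ^ n * β ^ (m * n) * C := mul_le_mul_of_nonneg_left h5 (by positivity)
    _ = (a : ℝ) ^ n * C * ρ ^ (p ^ e * m * n) := by
        rw [hβ, ← pow_mul]
        rw [show p ^ e * (m * n) = p ^ e * m * n by ring]
        ring

end HF48
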