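import Pool.Agent.helper48.HF.E2

open Polynomial

namespace HF48

variable {F : Type} [Field F] [Fintype F]

theorem card_L_ge (n d : ℕ) : (Fintype.card F) ^ (n * d) ≤ Nat.card (L F n d) := by
  have hf : Finite (L F n d) := (finite_L n d).to_subtype
  have h1 : Nat.card (Fin n → Fin d → F) ≤ Nat.card (L F n d) := by
    apply Nat.card_le_card_of_injective
      (fun c : Fin n → Fin d → F =>
        (⟨fun i => (((degreeLTEquiv F d).symm (c i) : degreeLT F d) : F[X]), by
          rw [mem_L]
          intro i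
          exact mem_degreeLT.mp ((degreeLTEquiv F d).symm (c i)).2⟩ : L F n d))
    intro c c' h
    have h2 := Subtype.ext_iff.mp h
    funext i
    have h3 := congrFun h2 i
    exact (degreeLTEquiv F d).symm.injective (Subtype.ext h3)
  refine le_trans (le_of_eq ?_) h1
  rw [Nat.card_eq_fintype_card, Fintype.card_fun, Fintype.card_fun, Fintype.card_fin,
    Fintype.card_fin, ← pow_mul, mul_comm]

omit [Fintype F] in
theorem mem_L_iff {n N : ℕ} {x : Fin n → F[X]} :
    x ∈ L F n (N + 1) ↔ ∀ i, (x i).natDegree ≤ N := by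
  rw [mem_L]
  refine forall_congr' (fun i => ?_)
  rw [Polynomial.natDegree_le_iff_degree_le]
  constructor
  · intro h
    by_cases h0 : x i = 0
    · simp [h0]
    · rw [Polynomial.degree_eq_natDegree h0] at h ⊢
      have : (x i).natDegree < N + 1 := by exact_mod_cast h
      exact_mod_cast Nat.lt_succ_iff.mp this
  · intro h
    refine lt_of_le_of_lt h ?_
    exact_mod_cast Nat.lt_succ_self N

/-- pairs of tuples with the same sum of k-th powers -/
def Pairs (F : Type) [Field F] (l k N : ℕ) : Set ((Fin l → F[X]) × (Fin l → F[X])) :=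
  {z | (∀ i, (z.1 i).natDegree ≤ N) ∧ (∀ i, (z.2 i).natDegree ≤ N) ∧
    ∑ i, z.1 i ^ k = ∑ i, z.2 i ^ k}

theorem pairs_bound (p e a l : ℕ) [Fact p.Prime] [CharP F p] (ha : 0 < a)
    (hl : 4 * l < p ^ e) :
    ∃ C : ℝ, 0 < C ∧ ∀ N, (Nat.card (Pairs F l (a * p ^ e + 1) N) : ℝ) ≤
      C * (Fintype.card F : ℝ) ^ (l * N) := by
  set ε : Fin (l + l) → F := Fin.append (fun _ => 1) (fun _ => -1) with hε
  have hε0 : ∀ i, ε i ≠ 0 := by
    intro i
    refine Fin.addCases ?_ ?_ i
    · intro j; rw [hε, Fin.append_left]; exact one_ne_zero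
    · intro j; rw [hε, Fin.append_right]; exact neg_ne_zero.mpr one_ne_zero
  have hεq : ∀ i, ε i ^ (p ^ e) = ε i := by
    intro i
    refine Fin.addCases ?_ ?_ i
    · intro j; rw [hε, Fin.append_left]; exact one_pow _
    · intro j; rw [hε, Fin.append_right]; exact neg_one_pow_char_pow F p e
  obtain ⟨C, hC0, hC⟩ := sol_bound (F := F) p e a (l + l) ha ε hε0 hεq (by omega)
  have hQ1 : (1 : ℝ) ≤ Fintype.card F := by exact_mod_cast Fintype.card_pos
  refine ⟨C * (Fintype.card F : ℝ) ^ (l * p ^ e), by positivity, ?_⟩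
  intro N
  set m : ℕ := N / p ^ e + 1 with hm
  have hq0 : 0 < p ^ e := by omega
  have hm1 : N < p ^ e * m := by
    rw [hm, mul_add, mul_one]
    exact Nat.lt_mul_div_succ N hq0 |>.trans_eq (by ring)
  have hm2 : p ^ e * m ≤ N + p ^ e := by
    rw [hm, mul_add, mul_one]
    have := Nat.mul_div_le N (p ^ e)
    omega
  have h1 : Nat.card (Pairs F l (a * p ^ e + 1) N) ≤ Nat.card (Sol p e a (l + l) m ε) := by
    apply Nat.card_le_card_of_injective (β := Sol p e a (l + l) m ε)
      (fun z : Pairs F l (a * p ^ e + 1) N =>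
        (⟨⟨Fin.append z.1.1 z.1.2, by
          rw [mem_L]
          intro i
          have hlt : ∀ x : F[X], x.natDegree ≤ N → x.degree < (p ^ e * m : ℕ) := by
            intro x hx
            refine lt_of_le_of_lt (Polynomial.natDegree_le_iff_degree_le.mp hx) ?_
            exact_mod_cast hm1
          refine Fin.addCases ?_ ?_ i
          · intro j; rw [Fin.append_left]; exact hlt _ (z.2.1 j)
          · intro j; rw [Fin.append_right]; exact hlt _ (z.2.2.1 j)⟩, by
          rw [Fin.sum_univ_add]
          simp only [Fin.append_left, Fin.append_right, hε, map_one, map_neg, one_mul, neg_mul,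
            Finset.sum_neg_distrib]
          rw [z.2.2.2]
          exact add_neg_cancel _⟩ : Sol p e a (l + l) m ε))
    intro z z' h
    have h2 := Subtype.ext_iff.mp (Subtype.ext_iff.mp h)
    have h3 : Fin.append z.1.1 z.1.2 = Fin.append z'.1.1 z'.1.2 := h2
    apply Subtype.ext
    apply Prod.ext
    · funext i
      have := congrFun h3 (Fin.castAdd l i)
      rwa [Fin.append_left, Fin.append_left] at this
    · funext i
      have := congrFun h3 (Fin.natAdd l i)
      rwa [Fin.append_right, Fin.append_right] at this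
  have h2 : (Nat.card (Pairs F l (a * p ^ e + 1) N) : ℝ) ≤ Nat.card (Sol p e a (l + l) m ε) := by
    exact_mod_cast h1
  refine h2.trans ((hC m).trans ?_)
  have h3 : (Real.sqrt (Fintype.card F)) ^ (p ^ e * m * (l + l)) =
      (Fintype.card F : ℝ) ^ (l * (p ^ e * m)) := by
    rw [show p ^ e * m * (l + l) = 2 * (l * (p ^ e * m)) by ring, pow_mul,
      Real.sq_sqrt (by positivity)]
  rw [h3]
  have h4 : (Fintype.card F : ℝ) ^ (l * (p ^ e * m)) ≤
      (Fintype.card F : ℝ) ^ (l * p ^ e + l * N) := by
    apply pow_le_pow_right₀ hQ1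
    rw [← mul_add]
    apply Nat.mul_le_mul_left
    omega
  calc C * (Fintype.card F : ℝ) ^ (l * (p ^ e * m))
      ≤ C * (Fintype.card F : ℝ) ^ (l * p ^ e + l * N) := mul_le_mul_of_nonneg_left h4 hC0.le
    _ = C * (Fintype.card F : ℝ) ^ (l * p ^ e) * (Fintype.card F : ℝ) ^ (l * N) := by
        rw [pow_add]; ring

end HF48
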